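import Pool.Agent.H66.SI.Abs

set_option autoImplicit false

/-!
Two-sided bounds of the second numerical index of the real space underlying `ℂ ⊕_N ℂ` by the
numerical index of the real plane with the norm `N`.
-/

namespace Pool.Agent.Results.MP_1cee73_an.AbsoluteNorms

open Pool.Agent.H66.SI

/-- Let `N` be an absolute norm on the plane other than the Euclidean one and `n` the numerical
index of the real plane with the norm `N`. Then the second numerical index of the real space
underlying `ℂ ⊕_N ℂ` lies between `n / (n + 5 / 4)` and `n`. -/
theorem result (N : AbsNorm) (hN : ∃ s t : ℝ, N.val s t ≠ √(s ^ 2 + t ^ 2)) :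
    numIndex (ASum N ℝ) / (numIndex (ASum N ℝ) + 5 / 4) ≤ secondIndex (ASum N ℂ) ∧
      secondIndex (ASum N ℂ) ≤ numIndex (ASum N ℝ) :=
  ASum.secondIndex_abs hN

end Pool.Agent.Results.MP_1cee73_an.AbsoluteNorms
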