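import Pool.Agent.H66.SI.Quartic

set_option autoImplicit false

/-!
The second numerical index of the real space underlying `ℂ ⊕_N ℂ` for absolute norms `N` near
the Euclidean norm.
-/

namespace Pool.Agent.Results.MP_1cee73_an.NearEuclidean

open Pool.Agent.H66.SI

/-- Let `N` be an absolute norm on the plane other than the Euclidean one, and let `N²` be a
`1/6`-Lipschitz function of `(s t)²` on the Euclidean unit circle. Then the second numerical index
of the real space underlying `ℂ ⊕_N ℂ` is the numerical radius of the rotation of the plane with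
the norm `N`. In particular it is `|1 - c| / (2 √(2 + 2 c))` for the norms
`(s⁴ + 2 c s² t² + t⁴)^(1/4)` with `|c - 1| ≤ 3/20`, `c ≠ 1`. -/
theorem result :
    (∀ N : AbsNorm, (∃ s t : ℝ, N.val s t ≠ √(s ^ 2 + t ^ 2)) →
      (∀ s t s' t' : ℝ, s ^ 2 + t ^ 2 = 1 → s' ^ 2 + t' ^ 2 = 1 →
        |N.val s t ^ 2 - N.val s' t' ^ 2| ≤ 1 / 6 * |(s * t) ^ 2 - (s' * t') ^ 2|) →
      secondIndex (ASum N ℂ) = N.rotRadius) ∧
    (∀ (c : ℝ) (h0 : 0 ≤ c) (h3 : c ≤ 3), c ≠ 1 → |c - 1| ≤ 3 / 20 →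
      secondIndex (ASum (quarticNorm c h0 h3) ℂ) = |1 - c| / (2 * √(2 + 2 * c))) := by
  refine ⟨fun N hN H => ASum.secondIndex_near hN H, fun c h0 h3 h1 h2 => ?_⟩
  rw [ASum.secondIndex_near (quarticNorm_ne h0 h3 h1) (quarticNorm_near h0 h3 h2),
    quarticNorm_rotRadius h0 h3]

end Pool.Agent.Results.MP_1cee73_an.NearEuclidean
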