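import Mathlib

set_option autoImplicit false

/-!
The second numerical index of the real Banach spaces underlying `ℂ ⊕₁ ℂ` and `ℂ ⊕_∞ ℂ`.
-/

namespace Pool.Agent.Results.MP_1cee73_an.SumsOneInfinity

/-! ### Definitions -/

section Defs

variable (X : Type) [NormedAddCommGroup X] [NormedSpace ℝ X]

/-- The numerical radius of an operator on a real normed space. -/
noncomputable def numRadius (T : X →L[ℝ] X) : ℝ :=
  sSup {r : ℝ | ∃ (x : X) (f : X →L[ℝ] ℝ), ‖x‖ = 1 ∧ ‖f‖ = 1 ∧ f x = 1 ∧ r = |f (T x)|}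

/-- The skew-hermitian operators: those of numerical radius zero. -/
def skewHerm : Set (X →L[ℝ] X) := {T | numRadius X T = 0}

/-- The quotient norm of the class of `T` modulo the skew-hermitian operators. -/
noncomputable def quotNorm (T : X →L[ℝ] X) : ℝ :=
  sInf {r : ℝ | ∃ S ∈ skewHerm X, r = ‖T + S‖}

/-- The second numerical index of a real normed space. -/
noncomputable def secondIndex : ℝ :=
  sInf {r : ℝ | ∃ T : X →L[ℝ] X, quotNorm X T = 1 ∧ r = numRadius X T}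

end Defs

/-! ### General facts -/

section General

variable {X : Type} [NormedAddCommGroup X] [NormedSpace ℝ X]

theorem numRadius_bddAbove (T : X →L[ℝ] X) :
    BddAbove {r : ℝ | ∃ (x : X) (f : X →L[ℝ] ℝ), ‖x‖ = 1 ∧ ‖f‖ = 1 ∧ f x = 1 ∧ r = |f (T x)|} := by
  refine ⟨‖T‖, ?_⟩
  rintro r ⟨x, f, hx, hf, -, rfl⟩
  calc |f (T x)| ≤ ‖f‖ * ‖T x‖ := f.le_opNorm _
    _ ≤ 1 * (‖T‖ * 1) := by
        rw [hf]
        have := T.le_opNorm x
        rw [hx] at this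
        linarith
    _ = ‖T‖ := by ring

theorem le_numRadius (T : X →L[ℝ] X) {x : X} {f : X →L[ℝ] ℝ} (hx : ‖x‖ = 1) (hf : ‖f‖ = 1)
    (hfx : f x = 1) : |f (T x)| ≤ numRadius X T :=
  le_csSup (numRadius_bddAbove T) ⟨x, f, hx, hf, hfx, rfl⟩

theorem numRadius_nonneg (T : X →L[ℝ] X) : 0 ≤ numRadius X T := by
  apply Real.sSup_nonneg
  rintro r ⟨x, f, -, -, -, rfl⟩
  exact abs_nonneg _

theorem numRadius_le (T : X →L[ℝ] X) {M : ℝ} (hM : 0 ≤ M)
    (h : ∀ (x : X) (f : X →L[ℝ] ℝ), ‖x‖ = 1 → ‖f‖ = 1 → f x = 1 → |f (T x)| ≤ M) :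
    numRadius X T ≤ M := by
  apply Real.sSup_le _ hM
  rintro r ⟨x, f, hx, hf, hfx, rfl⟩
  exact h x f hx hf hfx

theorem mem_skewHerm_iff (T : X →L[ℝ] X) : T ∈ skewHerm X ↔
    ∀ (x : X) (f : X →L[ℝ] ℝ), ‖x‖ = 1 → ‖f‖ = 1 → f x = 1 → f (T x) = 0 := by
  constructor
  · intro hT x f hx hf hfx
    have h1 := le_numRadius T hx hf hfx
    have h2 : numRadius X T = 0 := hT
    rw [h2] at h1
    exact abs_eq_zero.1 (le_antisymm h1 (abs_nonneg _))
  · intro h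
    apply le_antisymm _ (numRadius_nonneg T)
    apply numRadius_le T le_rfl
    intro x f hx hf hfx
    rw [h x f hx hf hfx, abs_zero]

theorem numRadius_smul {c : ℝ} (hc : 0 ≤ c) (T : X →L[ℝ] X) :
    numRadius X (c • T) = c * numRadius X T := by
  unfold numRadius
  rw [← smul_eq_mul, ← Real.sSup_smul_of_nonneg hc]
  congr 1
  ext r
  rw [Set.mem_smul_set]
  constructor
  · rintro ⟨x, f, hx, hf, hfx, rfl⟩
    refine ⟨|f (T x)|, ⟨x, f, hx, hf, hfx, rfl⟩, ?_⟩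
    simp [abs_mul, abs_of_nonneg hc]
  · rintro ⟨_, ⟨x, f, hx, hf, hfx, rfl⟩, rfl⟩
    refine ⟨x, f, hx, hf, hfx, ?_⟩
    simp [abs_mul, abs_of_nonneg hc]

theorem quotNorm_smul {c : ℝ} (hc : 0 < c) (T : X →L[ℝ] X) :
    quotNorm X (c • T) = c * quotNorm X T := by
  unfold quotNorm
  rw [← smul_eq_mul, ← Real.sInf_smul_of_nonneg hc.le]
  congr 1
  ext r
  rw [Set.mem_smul_set]
  constructor
  · rintro ⟨S, hS, rfl⟩
    refine ⟨‖T + c⁻¹ • S‖, ⟨c⁻¹ • S, ?_, rfl⟩, ?_⟩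
    · rw [mem_skewHerm_iff] at hS ⊢
      intro x f hx hf hfx
      simp [hS x f hx hf hfx]
    · rw [smul_eq_mul, ← abs_of_pos hc, ← Real.norm_eq_abs, ← norm_smul, Real.norm_eq_abs,
        abs_of_pos hc, smul_add, smul_smul, mul_inv_cancel₀ hc.ne', one_smul]
  · rintro ⟨_, ⟨S, hS, rfl⟩, rfl⟩
    refine ⟨c • S, ?_, ?_⟩
    · rw [mem_skewHerm_iff] at hS ⊢
      intro x f hx hf hfx
      simp [hS x f hx hf hfx]
    · rw [smul_eq_mul]
      nth_rewrite 1 [← abs_of_pos hc]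
      rw [← Real.norm_eq_abs, ← norm_smul, smul_add]

theorem zero_mem_skewHerm : (0 : X →L[ℝ] X) ∈ skewHerm X := by
  rw [mem_skewHerm_iff]
  intro x f _ _ _
  simp

theorem quotNorm_le (T : X →L[ℝ] X) {S : X →L[ℝ] X} (hS : S ∈ skewHerm X) :
    quotNorm X T ≤ ‖T + S‖ := by
  refine csInf_le ⟨0, ?_⟩ ⟨S, hS, rfl⟩
  rintro r ⟨S, -, rfl⟩
  exact norm_nonneg _

theorem le_quotNorm (T : X →L[ℝ] X) {M : ℝ} (h : ∀ S ∈ skewHerm X, M ≤ ‖T + S‖) :
    M ≤ quotNorm X T := by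
  refine le_csInf ⟨‖T + 0‖, 0, zero_mem_skewHerm, rfl⟩ ?_
  rintro r ⟨S, hS, rfl⟩
  exact h S hS

theorem secondIndex_eq {K : ℝ} (hK : 0 < K)
    (h1 : ∀ T : X →L[ℝ] X, ∃ S ∈ skewHerm X, ‖T + S‖ ≤ K * numRadius X T)
    (T₀ : X →L[ℝ] X) (h2 : numRadius X T₀ ≤ 9) (h3 : ∀ S ∈ skewHerm X, 9 * K ≤ ‖T₀ + S‖) :
    secondIndex X = K⁻¹ := by
  have hq : 9 * K ≤ quotNorm X T₀ := le_quotNorm T₀ h3
  have hqpos : 0 < quotNorm X T₀ := by linarith
  have hlow : ∀ r ∈ {r : ℝ | ∃ T : X →L[ℝ] X, quotNorm X T = 1 ∧ r = numRadius X T}, K⁻¹ ≤ r := by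
    rintro r ⟨T, hT, rfl⟩
    obtain ⟨S, hS, hle⟩ := h1 T
    have h4 := (quotNorm_le T hS).trans hle
    rw [hT] at h4
    rw [inv_le_iff_one_le_mul₀ hK]
    linarith
  have hmem : numRadius X ((quotNorm X T₀)⁻¹ • T₀) ∈
      {r : ℝ | ∃ T : X →L[ℝ] X, quotNorm X T = 1 ∧ r = numRadius X T} := by
    refine ⟨_, ?_, rfl⟩
    rw [quotNorm_smul (inv_pos.2 hqpos), inv_mul_cancel₀ hqpos.ne']
  apply le_antisymm
  · refine (csInf_le ⟨K⁻¹, hlow⟩ hmem).trans ?_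
    rw [numRadius_smul (inv_pos.2 hqpos).le]
    calc (quotNorm X T₀)⁻¹ * numRadius X T₀ ≤ (9 * K)⁻¹ * 9 := by
          have := numRadius_nonneg T₀
          gcongr
      _ = K⁻¹ := by
          field_simp
  · exact le_csInf ⟨_, hmem⟩ hlow

/-- Generators of curves on the unit ball are skew-hermitian. -/
theorem eq_zero_of_curve {f : X →L[ℝ] ℝ} {x v : X} (hf : ‖f‖ = 1) (hfx : f x = 1) (γ : ℝ → X)
    (h0 : γ 0 = x) (h1 : ∀ t, ‖γ t‖ ≤ 1) (hd : HasDerivAt γ v 0) : f v = 0 := by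
  have hd' : HasDerivAt (fun t => f (γ t)) (f v) 0 := f.hasFDerivAt.comp_hasDerivAt 0 hd
  have hmax : IsLocalMax (fun t => f (γ t)) 0 := by
    refine Filter.Eventually.of_forall fun t => ?_
    show f (γ t) ≤ f (γ 0)
    rw [h0, hfx]
    calc f (γ t) ≤ |f (γ t)| := le_abs_self _
      _ ≤ ‖f‖ * ‖γ t‖ := f.le_opNorm _
      _ ≤ 1 * 1 := by
          rw [hf]
          gcongr
          exact h1 t
      _ = 1 := by ring
  exact hmax.hasDerivAt_eq_zero hd'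

end General

/-! ### The planar inequality -/

/-- The constant `K = 7 √21 / 27`. -/
noncomputable def kk : ℝ := 7 * √21 / 27

theorem kk_pos : 0 < kk := by
  unfold kk
  positivity

theorem kk_sq : kk ^ 2 = 343 / 243 := by
  unfold kk
  rw [div_pow, mul_pow, Real.sq_sqrt (by norm_num)]
  norm_num

/-- Existence of the trisecting angle. -/
theorem exists_angle (γ : ℝ) (h1 : -Real.pi ≤ γ) (h2 : γ ≤ Real.pi) :
    ∃ a ε : ℝ, (ε = 1 ∨ ε = -1) ∧ Real.cos (3 * a) = ε * Real.cos γ ∧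
      Real.sin (3 * a) = ε * Real.sin γ ∧ 1 / 2 ≤ Real.cos a ∧ 1 / 4 ≤ Real.sin a ^ 2 := by
  have hpi := Real.pi_pos
  have key : ∀ b : ℝ, Real.pi / 6 ≤ |b| → |b| ≤ Real.pi / 3 →
      1 / 2 ≤ Real.cos b ∧ 1 / 4 ≤ Real.sin b ^ 2 := by
    intro b hb1 hb2
    constructor
    · rw [← Real.cos_abs, ← Real.cos_pi_div_three]
      exact Real.cos_le_cos_of_nonneg_of_le_pi (abs_nonneg _) (by linarith) hb2
    · have h3 : 1 / 2 ≤ Real.sin |b| := by
        rw [← Real.sin_pi_div_six]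
        exact Real.sin_le_sin_of_le_of_le_pi_div_two (by linarith) (by linarith) hb1
      have h4 : Real.sin b ^ 2 = Real.sin |b| ^ 2 := by
        rcases abs_choice b with h | h <;> simp [h]
      rw [h4]
      nlinarith [h3]
  rcases le_or_gt (Real.pi / 2) |γ| with h | h
  · refine ⟨γ / 3, 1, Or.inl rfl, ?_, ?_, ?_⟩
    · rw [one_mul]
      congr 1
      ring
    · rw [one_mul]
      congr 1
      ring
    · apply key
      · rw [abs_div, abs_of_pos (by norm_num : (0 : ℝ) < 3)]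
        linarith
      · rw [abs_div, abs_of_pos (by norm_num : (0 : ℝ) < 3)]
        have := abs_le.2 ⟨h1, h2⟩
        linarith
  · rw [abs_lt] at h
    rcases le_or_gt 0 γ with h0 | h0
    · refine ⟨(γ - Real.pi) / 3, -1, Or.inr rfl, ?_, ?_, ?_⟩
      · rw [show 3 * ((γ - Real.pi) / 3) = γ - Real.pi by ring, Real.cos_sub_pi]
        ring
      · rw [show 3 * ((γ - Real.pi) / 3) = γ - Real.pi by ring, Real.sin_sub_pi]
        ring
      · apply key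
        · rw [abs_of_nonpos (by linarith)]
          linarith
        · rw [abs_of_nonpos (by linarith)]
          linarith
    · refine ⟨(γ + Real.pi) / 3, -1, Or.inr rfl, ?_, ?_, ?_⟩
      · rw [show 3 * ((γ + Real.pi) / 3) = γ + Real.pi by ring, Real.cos_add_pi]
        ring
      · rw [show 3 * ((γ + Real.pi) / 3) = γ + Real.pi by ring, Real.sin_add_pi]
        ring
      · apply key
        · rw [abs_of_pos (by linarith)]
          linarith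
        · rw [abs_of_pos (by linarith)]
          linarith

/-- The planar inequality. -/
theorem planar (p q r e₁ e₂ V : ℝ)
    (h : ∀ u₁ u₂ : ℝ, u₁ ^ 2 + u₂ ^ 2 = 1 →
      |p * u₁ ^ 2 + 2 * q * u₁ * u₂ + r * u₂ ^ 2| + |e₁ * u₁ + e₂ * u₂| ≤ V)
    (z₁ z₂ y₁ y₂ : ℝ) (hz : z₁ ^ 2 + z₂ ^ 2 = 1) (hy : y₁ ^ 2 + y₂ ^ 2 = 1) :
    (p * y₁ * z₁ + q * (y₁ * z₂ + y₂ * z₁) + r * y₂ * z₂) + (e₁ * z₁ + e₂ * z₂) ≤ kk * V := by
  have hV : 0 ≤ V := by
    have := h 1 0 (by norm_num)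
    have h3 := abs_nonneg (p * 1 ^ 2 + 2 * q * 1 * 0 + r * 0 ^ 2)
    have h4 := abs_nonneg (e₁ * 1 + e₂ * 0)
    linarith
  -- the angle
  obtain ⟨a, ε, hε, hc3, hs3, hc, hs⟩ :
      ∃ a ε : ℝ, (ε = 1 ∨ ε = -1) ∧ Real.cos (3 * a) = ε * (z₁ * y₁ + z₂ * y₂) ∧
      Real.sin (3 * a) = ε * (z₂ * y₁ - z₁ * y₂) ∧ 1 / 2 ≤ Real.cos a ∧ 1 / 4 ≤ Real.sin a ^ 2 := by
    have hw : ‖(⟨z₁ * y₁ + z₂ * y₂, z₂ * y₁ - z₁ * y₂⟩ : ℂ)‖ = 1 := by
      rw [Complex.norm_def, Complex.normSq_mk, Real.sqrt_eq_one]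
      linear_combination (y₁ ^ 2 + y₂ ^ 2) * hz + hy
    set w : ℂ := ⟨z₁ * y₁ + z₂ * y₂, z₂ * y₁ - z₁ * y₂⟩ with hwdef
    have hw0 : w ≠ 0 := by
      intro h0
      rw [h0] at hw
      simp at hw
    obtain ⟨a, ε, hε, h5, h6, h7⟩ := exists_angle w.arg (Complex.neg_pi_lt_arg w).le
      (Complex.arg_le_pi w)
    refine ⟨a, ε, hε, ?_, ?_, h7⟩
    · rw [h5, Complex.cos_arg hw0, hw, div_one]
    · rw [h6, Complex.sin_arg, hw, div_one]
  set c := Real.cos a with hcdef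
  set s := Real.sin a with hsdef
  have hcs : s ^ 2 + c ^ 2 = 1 := Real.sin_sq_add_cos_sq a
  have hc3' : 4 * c ^ 3 - 3 * c = ε * (z₁ * y₁ + z₂ * y₂) := by
    rw [← hc3, Real.cos_three_mul]
  have hs3' : 3 * s - 4 * s ^ 3 = ε * (z₂ * y₁ - z₁ * y₂) := by
    rw [← hs3, Real.sin_three_mul]
  have hεsq : ε ^ 2 = 1 := by rcases hε with rfl | rfl <;> norm_num
  -- the frame
  set g₁ := z₁ * c + z₂ * s with hg1
  set g₂ := -z₁ * s + z₂ * c with hg2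
  have hg : g₁ ^ 2 + g₂ ^ 2 = 1 := by
    rw [hg1, hg2]
    linear_combination (c ^ 2 + s ^ 2) * hz + hcs
  have hz1 : z₁ = c * g₁ - s * g₂ := by
    rw [hg1, hg2]
    linear_combination -z₁ * hcs
  have hz2 : z₂ = c * g₂ + s * g₁ := by
    rw [hg1, hg2]
    linear_combination -z₂ * hcs
  have hy1 : y₁ = ε * (z₁ * (4 * c ^ 3 - 3 * c) + z₂ * (3 * s - 4 * s ^ 3)) := by
    rw [hc3', hs3']
    linear_combination -(z₁ ^ 2 + z₂ ^ 2) * y₁ * hεsq - y₁ * hz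
  have hy2 : y₂ = ε * (z₂ * (4 * c ^ 3 - 3 * c) - z₁ * (3 * s - 4 * s ^ 3)) := by
    rw [hc3', hs3']
    linear_combination -(z₁ ^ 2 + z₂ ^ 2) * y₂ * hεsq - y₂ * hz
  have hy1' : y₁ = ε * ((c ^ 2 - s ^ 2) * g₁ + 2 * s * c * g₂) := by
    rw [hy1, hz1, hz2]
    linear_combination ε * (4 * (c ^ 2 - s ^ 2) * g₁ - 4 * c * s * g₂) * hcs
  have hy2' : y₂ = ε * ((c ^ 2 - s ^ 2) * g₂ - 2 * s * c * g₁) := by
    rw [hy2, hz1, hz2]
    linear_combination ε * (4 * (c ^ 2 - s ^ 2) * g₂ + 4 * c * s * g₁) * hcs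
  clear_value g₁ g₂
  clear hy1 hy2 hg1 hg2 hc3 hs3 hc3' hs3'
  -- the weights
  obtain ⟨w, hw, hwpos⟩ : ∃ w : ℝ, w ^ 2 = 3 ∧ 0 < w :=
    ⟨√3, Real.sq_sqrt (by norm_num), Real.sqrt_pos.2 (by norm_num)⟩
  have hcpos : 0 < c := by linarith
  have hs34 : s ^ 2 ≤ 3 / 4 := by nlinarith
  have hμ1 : 0 ≤ c * (1 - 4 / 3 * s ^ 2) := by
    apply mul_nonneg hcpos.le
    linarith
  have hprod : 3 / 16 ≤ c ^ 2 * s ^ 2 := by
    have : c ^ 2 = 1 - s ^ 2 := by linarith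
    rw [this]
    nlinarith
  have hdσ : |2 * w / 3 * s| ≤ 8 / 3 * c * s ^ 2 := by
    apply abs_le_of_sq_le_sq _ (by positivity)
    have e1 : (2 * w / 3 * s) ^ 2 = 4 / 3 * s ^ 2 := by
      linear_combination 4 / 9 * s ^ 2 * hw
    have e2 : (8 / 3 * c * s ^ 2) ^ 2 = 64 / 9 * (c ^ 2 * s ^ 2) * s ^ 2 := by ring
    rw [e1, e2]
    have : 0 ≤ s ^ 2 := sq_nonneg s
    nlinarith
  rw [abs_le] at hdσ
  have hμ2 : 0 ≤ (8 / 3 * c * s ^ 2 + 2 * w / 3 * s) / 2 := by linarith [hdσ.1]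
  have hμ3 : 0 ≤ (8 / 3 * c * s ^ 2 - 2 * w / 3 * s) / 2 := by linarith [hdσ.2]
  -- the three tests
  have habs : ∀ x y : ℝ, |x| + |y| ≤ V → ε * x + y ≤ V ∧ -ε * x + y ≤ V := by
    intro x y hxy
    have h1 := le_abs_self x
    have h2 := neg_abs_le x
    have h3 := le_abs_self y
    rcases hε with rfl | rfl <;> constructor <;> linarith
  have t1 := (habs _ _ (h g₁ g₂ hg)).1
  have t2 := (habs _ _ (h (g₁ / 2 - w / 2 * g₂) (g₂ / 2 + w / 2 * g₁) (by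
    linear_combination (1 / 4 + w ^ 2 / 4) * hg + hw / 4))).2
  have t3 := (habs _ _ (h (g₁ / 2 + w / 2 * g₂) (g₂ / 2 - w / 2 * g₁) (by
    linear_combination (1 / 4 + w ^ 2 / 4) * hg + hw / 4))).2
  have m1 := mul_le_mul_of_nonneg_left t1 hμ1
  have m2 := mul_le_mul_of_nonneg_left t2 hμ2
  have m3 := mul_le_mul_of_nonneg_left t3 hμ3
  have key : (p * y₁ * z₁ + q * (y₁ * z₂ + y₂ * z₁) + r * y₂ * z₂) + (e₁ * z₁ + e₂ * z₂) ≤
      (c * (1 + 4 / 3 * s ^ 2)) * V := by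
    have hid : (p * y₁ * z₁ + q * (y₁ * z₂ + y₂ * z₁) + r * y₂ * z₂) + (e₁ * z₁ + e₂ * z₂) =
        c * (1 - 4 / 3 * s ^ 2) * (ε * (p * g₁ ^ 2 + 2 * q * g₁ * g₂ + r * g₂ ^ 2) +
          (e₁ * g₁ + e₂ * g₂)) +
        (8 / 3 * c * s ^ 2 + 2 * w / 3 * s) / 2 * (-ε * (p * (g₁ / 2 - w / 2 * g₂) ^ 2 +
          2 * q * (g₁ / 2 - w / 2 * g₂) * (g₂ / 2 + w / 2 * g₁) +
          r * (g₂ / 2 + w / 2 * g₁) ^ 2) +
          (e₁ * (g₁ / 2 - w / 2 * g₂) + e₂ * (g₂ / 2 + w / 2 * g₁))) +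
        (8 / 3 * c * s ^ 2 - 2 * w / 3 * s) / 2 * (-ε * (p * (g₁ / 2 + w / 2 * g₂) ^ 2 +
          2 * q * (g₁ / 2 + w / 2 * g₂) * (g₂ / 2 - w / 2 * g₁) +
          r * (g₂ / 2 - w / 2 * g₁) ^ 2) +
          (e₁ * (g₁ / 2 + w / 2 * g₂) + e₂ * (g₂ / 2 - w / 2 * g₁))) := by
      rw [hy1', hy2', hz1, hz2]
      linear_combination ε * (c * (p * g₁ ^ 2 + 2 * q * g₁ * g₂ + r * g₂ ^ 2) -
        s * (-p * g₁ * g₂ + q * (g₁ ^ 2 - g₂ ^ 2) + r * g₁ * g₂)) * hcs +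
        (ε * s / 3 * (-p * g₁ * g₂ + q * (g₁ ^ 2 - g₂ ^ 2) + r * g₁ * g₂) +
          2 / 3 * ε * c * s ^ 2 * (p * g₂ ^ 2 - 2 * q * g₁ * g₂ + r * g₁ ^ 2) -
          s / 3 * (-e₁ * g₂ + e₂ * g₁)) * hw
    rw [hid]
    linarith
  refine key.trans (mul_le_mul_of_nonneg_right ?_ hV)
  apply le_of_sq_le_sq _ kk_pos.le
  rw [kk_sq]
  have e3 : (c * (1 + 4 / 3 * s ^ 2)) ^ 2 = (1 - s ^ 2) * (1 + 4 / 3 * s ^ 2) ^ 2 := by
    linear_combination (1 + 4 / 3 * s ^ 2) ^ 2 * hcs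
  rw [e3]
  have e4 : 343 / 243 - (1 - s ^ 2) * (1 + 4 / 3 * s ^ 2) ^ 2 =
      16 / 9 * (s ^ 2 - 5 / 12) ^ 2 * (s ^ 2 + 4 / 3) := by ring
  have e5 : 0 ≤ 16 / 9 * (s ^ 2 - 5 / 12) ^ 2 * (s ^ 2 + 4 / 3) := by positivity
  linarith

/-! ### Planar vectors as complex numbers -/

/-- The real inner product of the plane. -/
def ip (u v : ℂ) : ℝ := u.re * v.re + u.im * v.im

theorem ip_add (u v w : ℂ) : ip u (v + w) = ip u v + ip u w := by
  simp only [ip, Complex.add_re, Complex.add_im]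
  ring

theorem ip_neg (u v : ℂ) : ip u (-v) = -ip u v := by
  simp only [ip, Complex.neg_re, Complex.neg_im]
  ring

theorem ip_zero (u : ℂ) : ip u 0 = 0 := by simp [ip]

theorem zero_ip (u : ℂ) : ip 0 u = 0 := by simp [ip]

theorem ip_smul (u v : ℂ) (c : ℝ) : ip u (c • v) = c * ip u v := by
  simp only [ip, Complex.real_smul, Complex.mul_re, Complex.mul_im, Complex.ofReal_re,
    Complex.ofReal_im]
  ring

theorem norm_sq_eq (u : ℂ) : ‖u‖ ^ 2 = u.re ^ 2 + u.im ^ 2 := by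
  rw [Complex.sq_norm, Complex.normSq_apply]
  ring

theorem sq_eq_one {u : ℂ} (hu : ‖u‖ = 1) : u.re ^ 2 + u.im ^ 2 = 1 := by
  rw [← norm_sq_eq, hu]
  norm_num

theorem norm_eq_one {u : ℂ} (hu : u.re ^ 2 + u.im ^ 2 = 1) : ‖u‖ = 1 := by
  have h1 := norm_sq_eq u
  rw [hu] at h1
  have h2 := norm_nonneg u
  nlinarith

theorem ip_self {u : ℂ} (hu : ‖u‖ = 1) : ip u u = 1 := by
  rw [← sq_eq_one hu, ip]
  ring

theorem abs_ip_le (u v : ℂ) : |ip u v| ≤ ‖u‖ * ‖v‖ := by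
  apply abs_le_of_sq_le_sq _ (by positivity)
  rw [mul_pow, norm_sq_eq, norm_sq_eq, ip]
  nlinarith [sq_nonneg (u.re * v.im - u.im * v.re)]

theorem exists_unit (v : ℂ) : ∃ z : ℂ, ‖z‖ = 1 ∧ ip z v = ‖v‖ ∧ v = ‖v‖ • z := by
  by_cases hv : v = 0
  · exact ⟨1, by simp, by simp [hv, ip], by simp [hv]⟩
  · have hpos : 0 < ‖v‖ := norm_pos_iff.2 hv
    have hz : ‖(‖v‖⁻¹ • v : ℂ)‖ = 1 := by
      rw [norm_smul, norm_inv, norm_norm, inv_mul_cancel₀ hpos.ne']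
    have hv' : v = ‖v‖ • (‖v‖⁻¹ • v) := by
      rw [smul_smul, mul_inv_cancel₀ hpos.ne', one_smul]
    refine ⟨‖v‖⁻¹ • v, hz, ?_, hv'⟩
    calc ip (‖v‖⁻¹ • v) v = ip (‖v‖⁻¹ • v) (‖v‖ • (‖v‖⁻¹ • v)) := by rw [← hv']
      _ = ‖v‖ := by rw [ip_smul, ip_self hz, mul_one]

/-- The skew part of a planar operator. -/
noncomputable def skw (A : ℂ →L[ℝ] ℂ) : ℝ := ((A 1).im - (A Complex.I).re) / 2

theorem apply_eq (A : ℂ →L[ℝ] ℂ) (u : ℂ) : A u = u.re • A 1 + u.im • A Complex.I := by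
  conv_lhs => rw [← Complex.re_add_im u]
  rw [map_add]
  congr 1
  · rw [← map_smul]
    congr 1
    simp
  · rw [← map_smul]
    congr 1

theorem ip_sym (A : ℂ →L[ℝ] ℂ) (y z : ℂ) : ip y (A z - skw A • (Complex.I * z)) =
    (A 1).re * y.re * z.re + ((A 1).im + (A Complex.I).re) / 2 * (y.re * z.im + y.im * z.re) +
      (A Complex.I).im * y.im * z.im := by
  rw [apply_eq A z]
  simp only [ip, skw, Complex.sub_re, Complex.sub_im, Complex.add_re, Complex.add_im,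
    Complex.real_smul, Complex.mul_re, Complex.mul_im, Complex.ofReal_re, Complex.ofReal_im,
    Complex.I_re, Complex.I_im]
  ring

theorem ip_diag (A : ℂ →L[ℝ] ℂ) (u : ℂ) : ip u (A u) =
    (A 1).re * u.re ^ 2 + 2 * (((A 1).im + (A Complex.I).re) / 2) * u.re * u.im +
      (A Complex.I).im * u.im ^ 2 := by
  rw [apply_eq A u]
  simp only [ip, Complex.add_re, Complex.add_im,
    Complex.real_smul, Complex.mul_re, Complex.mul_im, Complex.ofReal_re, Complex.ofReal_im]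
  ring

/-- The planar inequality for operators. -/
theorem planar_op (A : ℂ →L[ℝ] ℂ) (e₁ e₂ V : ℝ)
    (h : ∀ u : ℂ, ‖u‖ = 1 → |ip u (A u)| + |e₁ * u.re + e₂ * u.im| ≤ V)
    (z y : ℂ) (hz : ‖z‖ = 1) (hy : ‖y‖ = 1) :
    ip y (A z - skw A • (Complex.I * z)) + (e₁ * z.re + e₂ * z.im) ≤ kk * V := by
  rw [ip_sym]
  refine planar _ _ _ e₁ e₂ V ?_ z.re z.im y.re y.im (sq_eq_one hz) (sq_eq_one hy)
  intro u₁ u₂ hu
  have h1 := h ⟨u₁, u₂⟩ (norm_eq_one hu)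
  rw [ip_diag] at h1
  exact h1

theorem ip_sym_comm (A : ℂ →L[ℝ] ℂ) (y z : ℂ) : ip y (A z - skw A • (Complex.I * z)) =
    ip z (A y - skw A • (Complex.I * y)) := by
  rw [ip_sym, ip_sym]
  ring

/-- The example `diag(1, -7)`. -/
noncomputable def P₀ : ℂ →L[ℝ] ℂ :=
  Complex.reCLM.smulRight (1 : ℂ) + Complex.imCLM.smulRight (-7 * Complex.I)

/-- The example of rank one. -/
noncomputable def B₀ : ℂ →L[ℝ] ℂ := Complex.reCLM.smulRight (8 : ℂ)

theorem P₀_re (y : ℂ) : (P₀ y).re = y.re := by simp [P₀]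
theorem P₀_im (y : ℂ) : (P₀ y).im = -7 * y.im := by
  simp [P₀]
  ring
theorem B₀_re (y : ℂ) : (B₀ y).re = 8 * y.re := by
  simp [B₀]
  ring
theorem B₀_im (y : ℂ) : (B₀ y).im = 0 := by simp [B₀]

theorem example_le {y : ℂ} (hy : ‖y‖ = 1) {t : ℝ} (ht : |t| ≤ 8 * |y.re|) :
    |ip y (P₀ y)| + |t| ≤ 9 := by
  have h1 := sq_eq_one hy
  have h2 : ip y (P₀ y) = 8 * |y.re| ^ 2 - 7 := by
    rw [ip, P₀_re, P₀_im, sq_abs]
    linear_combination -7 * h1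
  have h3 : |y.re| ≤ 1 := by
    have : y.re ^ 2 ≤ 1 := by nlinarith [sq_nonneg y.im]
    exact abs_le_one_iff_mul_self_le_one.2 (by nlinarith)
  have h4 := abs_nonneg y.re
  rw [h2]
  have h5 : |8 * |y.re| ^ 2 - 7| ≤ 9 - 8 * |y.re| := by
    rw [abs_le]
    constructor
    · nlinarith [sq_nonneg (2 * |y.re| - 1)]
    · nlinarith
  linarith

theorem skew_conditions (A : ℂ →L[ℝ] ℂ) (h : ∀ u : ℂ, ‖u‖ = 1 → ip u (A u) = 0) :
    (A 1).re = 0 ∧ (A Complex.I).im = 0 ∧ (A 1).im + (A Complex.I).re = 0 := by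
  have h1 := h 1 (by simp)
  have h2 := h Complex.I (by simp)
  have hn : ‖(⟨3 / 5, 4 / 5⟩ : ℂ)‖ = 1 := norm_eq_one (by norm_num)
  have h3 := h ⟨3 / 5, 4 / 5⟩ hn
  rw [ip_diag] at h1 h2 h3
  simp only [Complex.one_re, Complex.one_im, Complex.I_re, Complex.I_im] at h1 h2 h3
  refine ⟨by linarith, by linarith, by linarith⟩

/-- The two test vectors give a lower bound for the perturbed example. -/
theorem example_ge (t M : ℝ)
    (hM : ∀ z y : ℂ, ‖z‖ = 1 → ‖y‖ = 1 →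
      (y.re * z.re - 7 * y.im * z.im) + t * (y.im * z.re - y.re * z.im) + 8 * z.re ≤ M) :
    9 * kk ≤ M := by
  have ha : √3 ^ 2 = 3 := Real.sq_sqrt (by norm_num)
  have hb : √5 ^ 2 = 5 := Real.sq_sqrt (by norm_num)
  have hd : √7 ^ 2 = 7 := Real.sq_sqrt (by norm_num)
  have had : √21 = √3 * √7 := by
    rw [← Real.sqrt_mul (by norm_num)]
    norm_num
  have hz1 : ‖(⟨√3 * √7 / 6, √3 * √5 / 6⟩ : ℂ)‖ = 1 := norm_eq_one (by
    simp only
    linear_combination (√7 ^ 2 / 36 + √5 ^ 2 / 36) * ha + hd / 12 + hb / 12)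
  have hz2 : ‖(⟨√3 * √7 / 6, -(√3 * √5 / 6)⟩ : ℂ)‖ = 1 := norm_eq_one (by
    simp only
    linear_combination (√7 ^ 2 / 36 + √5 ^ 2 / 36) * ha + hd / 12 + hb / 12)
  have hy1 : ‖(⟨1 / 6, -(√5 * √7 / 6)⟩ : ℂ)‖ = 1 := norm_eq_one (by
    simp only
    linear_combination (√7 ^ 2 / 36) * hb + 5 / 36 * hd)
  have hy2 : ‖(⟨1 / 6, √5 * √7 / 6⟩ : ℂ)‖ = 1 := norm_eq_one (by
    simp only
    linear_combination (√7 ^ 2 / 36) * hb + 5 / 36 * hd)
  have h1 := hM _ _ hz1 hy1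
  have h2 := hM _ _ hz2 hy2
  simp only at h1 h2
  have h3 : 9 * kk = 7 / 3 * (√3 * √7) := by
    rw [kk, had]
    ring
  rw [h3]
  have h4 : (1 / 6 * (√3 * √7 / 6) - 7 * -(√5 * √7 / 6) * (√3 * √5 / 6)) =
      √3 * √7 := by
    linear_combination (7 / 36 * √3 * √7) * hb
  have h5 : (1 / 6 * (√3 * √7 / 6) - 7 * (√5 * √7 / 6) * -(√3 * √5 / 6)) =
      √3 * √7 := by
    linear_combination (7 / 36 * √3 * √7) * hb
  rw [h4] at h1
  rw [h5] at h2
  nlinarith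

theorem ip_skew {A : ℂ →L[ℝ] ℂ} (h : (A 1).re = 0 ∧ (A Complex.I).im = 0 ∧
    (A 1).im + (A Complex.I).re = 0) (y z : ℂ) :
    ip y (A z) = (A 1).im * (y.im * z.re - y.re * z.im) := by
  obtain ⟨h1, h2, h3⟩ := h
  rw [apply_eq A z]
  simp only [ip, Complex.add_re, Complex.add_im,
    Complex.real_smul, Complex.mul_re, Complex.mul_im, Complex.ofReal_re, Complex.ofReal_im]
  rw [h1, h2, show (A Complex.I).re = -(A 1).im by linarith]
  ring

theorem ip_P₀ (y z : ℂ) : ip y (P₀ z) = y.re * z.re - 7 * y.im * z.im := by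
  rw [ip, P₀_re, P₀_im]
  ring

/-! ### The two spaces -/

section Spaces

open WithLp

variable (p : ENNReal) [Fact (1 ≤ p)]

/-- Coordinates. -/
noncomputable def fstL : WithLp p (ℂ × ℂ) →L[ℝ] ℂ :=
  (ContinuousLinearMap.fst ℝ ℂ ℂ).comp
    (prodContinuousLinearEquiv p ℝ ℂ ℂ).toContinuousLinearMap

noncomputable def sndL : WithLp p (ℂ × ℂ) →L[ℝ] ℂ :=
  (ContinuousLinearMap.snd ℝ ℂ ℂ).comp
    (prodContinuousLinearEquiv p ℝ ℂ ℂ).toContinuousLinearMap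

noncomputable def inL : ℂ →L[ℝ] WithLp p (ℂ × ℂ) :=
  (prodContinuousLinearEquiv p ℝ ℂ ℂ).symm.toContinuousLinearMap.comp
    (ContinuousLinearMap.inl ℝ ℂ ℂ)

noncomputable def inR : ℂ →L[ℝ] WithLp p (ℂ × ℂ) :=
  (prodContinuousLinearEquiv p ℝ ℂ ℂ).symm.toContinuousLinearMap.comp
    (ContinuousLinearMap.inr ℝ ℂ ℂ)

theorem fstL_apply (x : WithLp p (ℂ × ℂ)) : fstL p x = x.fst := rfl
theorem sndL_apply (x : WithLp p (ℂ × ℂ)) : sndL p x = x.snd := rfl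
theorem inL_apply (y : ℂ) : inL p y = toLp p (y, 0) := rfl
theorem inR_apply (y : ℂ) : inR p y = toLp p (0, y) := rfl

theorem eq_inL_add_inR (x : WithLp p (ℂ × ℂ)) : x = inL p x.fst + inR p x.snd := by
  rw [inL_apply, inR_apply, ← toLp_add]
  simp only [Prod.mk_add_mk, add_zero, zero_add]
  rfl

/-- The functional given by a pair of vectors. -/
noncomputable def fn (a b : ℂ) : WithLp p (ℂ × ℂ) →L[ℝ] ℝ :=
  (innerSL ℝ a).comp (fstL p) + (innerSL ℝ b).comp (sndL p)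

theorem innerSL_eq (a x : ℂ) : innerSL ℝ a x = ip a x := by
  rw [innerSL_apply_apply, Complex.inner]
  simp [ip]
  ring

theorem fn_apply (a b : ℂ) (x : WithLp p (ℂ × ℂ)) : fn p a b x = ip a x.fst + ip b x.snd := by
  show innerSL ℝ a x.fst + innerSL ℝ b x.snd = _
  rw [innerSL_eq, innerSL_eq]

theorem exists_fn (f : WithLp p (ℂ × ℂ) →L[ℝ] ℝ) : ∃ a b : ℂ, f = fn p a b := by
  refine ⟨⟨f (inL p 1), f (inL p Complex.I)⟩, ⟨f (inR p 1), f (inR p Complex.I)⟩, ?_⟩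
  ext x
  rw [fn_apply]
  have key : ∀ (g : ℂ →L[ℝ] ℝ) (u : ℂ), g u = ip ⟨g 1, g Complex.I⟩ u := by
    intro g u
    have hu : u = u.re • (1 : ℂ) + u.im • Complex.I := by
      apply Complex.ext <;> simp
    conv_lhs => rw [hu, map_add, map_smul, map_smul]
    simp only [ip, smul_eq_mul]
    ring
  conv_lhs => rw [eq_inL_add_inR p x]
  rw [map_add]
  have k1 := key (f.comp (inL p)) x.fst
  have k2 := key (f.comp (inR p)) x.snd
  simp only [ContinuousLinearMap.comp_apply] at k1 k2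
  rw [k1, k2]

/-- The operator with given blocks. -/
noncomputable def op (A B C D : ℂ →L[ℝ] ℂ) : WithLp p (ℂ × ℂ) →L[ℝ] WithLp p (ℂ × ℂ) :=
  (inL p).comp (A.comp (fstL p) + B.comp (sndL p)) + (inR p).comp (C.comp (fstL p) + D.comp (sndL p))

theorem op_fst (A B C D : ℂ →L[ℝ] ℂ) (x : WithLp p (ℂ × ℂ)) :
    (op p A B C D x).fst = A x.fst + B x.snd := by
  simp [op, inL_apply, inR_apply, fstL_apply, sndL_apply]

theorem op_snd (A B C D : ℂ →L[ℝ] ℂ) (x : WithLp p (ℂ × ℂ)) :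
    (op p A B C D x).snd = C x.fst + D x.snd := by
  simp [op, inL_apply, inR_apply, fstL_apply, sndL_apply]

/-- Multiplication by `s i`. -/
noncomputable def rot (s : ℝ) : ℂ →L[ℝ] ℂ :=
  s • (ContinuousLinearMap.mul ℝ ℂ Complex.I)

theorem rot_apply (s : ℝ) (y : ℂ) : rot s y = s • (Complex.I * y) := rfl

/-- Rotations of the two coordinates are skew-hermitian for norms depending on the moduli. -/
theorem rot_mem (hnorm : ∀ x x' : WithLp p (ℂ × ℂ), ‖x.fst‖ = ‖x'.fst‖ → ‖x.snd‖ = ‖x'.snd‖ →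
    ‖x‖ = ‖x'‖) (s t : ℝ) : op p (rot s) 0 0 (rot t) ∈ skewHerm (WithLp p (ℂ × ℂ)) := by
  rw [mem_skewHerm_iff]
  intro x f hx hf hfx
  have hder : ∀ (s : ℝ) (y : ℂ), HasDerivAt
      (fun τ : ℝ => Complex.exp (((s * τ : ℝ) : ℂ) * Complex.I) * y) (rot s y) 0 := by
    intro s y
    have h1 := ((((hasDerivAt_id (0 : ℝ)).const_mul s).ofReal_comp.mul_const Complex.I).cexp.mul_const y)
    refine h1.congr_deriv ?_
    rw [rot_apply]
    simp
    ring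
  refine eq_zero_of_curve hf hfx (fun τ : ℝ =>
    inL p (Complex.exp (((s * τ : ℝ) : ℂ) * Complex.I) * x.fst) +
    inR p (Complex.exp (((t * τ : ℝ) : ℂ) * Complex.I) * x.snd)) ?_ ?_ ?_
  · simp only [mul_zero, Complex.ofReal_zero, zero_mul, Complex.exp_zero, one_mul]
    exact (eq_inL_add_inR p x).symm
  · intro τ
    rw [← hx]
    apply le_of_eq
    apply hnorm
    · simp only [inL_apply, inR_apply, add_fst, toLp_fst, add_zero, norm_mul,
        Complex.norm_exp_ofReal_mul_I, one_mul]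
    · simp only [inL_apply, inR_apply, add_snd, toLp_snd, zero_add, norm_mul,
        Complex.norm_exp_ofReal_mul_I, one_mul]
  · have h1 := ((inL p).hasFDerivAt.comp_hasDerivAt 0 (hder s x.fst)).add
      ((inR p).hasFDerivAt.comp_hasDerivAt 0 (hder t x.snd))
    refine h1.congr_deriv ?_
    conv_rhs => rw [eq_inL_add_inR p (op p (rot s) 0 0 (rot t) x)]
    rw [op_fst, op_snd]
    simp

theorem norm_eq_one_of {X : Type} [NormedAddCommGroup X] [NormedSpace ℝ X] {f : X →L[ℝ] ℝ}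
    {x₀ : X} (h : ∀ x, |f x| ≤ ‖x‖) (hx : ‖x₀‖ = 1) (hf : f x₀ = 1) : ‖f‖ = 1 := by
  apply le_antisymm
  · exact f.opNorm_le_bound zero_le_one fun x => by rw [one_mul]; exact h x
  · have := f.le_opNorm x₀
    rw [hf, hx, norm_one, mul_one] at this
    exact this

/-- Decomposition of an operator in blocks. -/
theorem apply_blocks (T : WithLp p (ℂ × ℂ) →L[ℝ] WithLp p (ℂ × ℂ)) (x : WithLp p (ℂ × ℂ)) :
    (T x).fst = ((fstL p).comp (T.comp (inL p))) x.fst + ((fstL p).comp (T.comp (inR p))) x.snd ∧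
    (T x).snd = ((sndL p).comp (T.comp (inL p))) x.fst +
      ((sndL p).comp (T.comp (inR p))) x.snd := by
  constructor
  · simp only [ContinuousLinearMap.comp_apply, fstL_apply]
    rw [← add_fst, ← map_add, ← eq_inL_add_inR]
  · simp only [ContinuousLinearMap.comp_apply, sndL_apply]
    rw [← add_snd, ← map_add, ← eq_inL_add_inR]

theorem abs_add_abs_le {a b V : ℝ} (h1 : |a + b| ≤ V) (h2 : |a - b| ≤ V) : |a| + |b| ≤ V := by
  rw [abs_le] at h1 h2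
  rcases abs_cases a with ⟨ha, -⟩ | ⟨ha, -⟩ <;> rcases abs_cases b with ⟨hb, -⟩ | ⟨hb, -⟩ <;>
    rw [ha, hb] <;> linarith

/-! #### The sup norm -/

theorem fn_top_norm {a b : ℂ} (x₀ : WithLp ⊤ (ℂ × ℂ)) (hab : ‖a‖ + ‖b‖ ≤ 1) (hx : ‖x₀‖ = 1)
    (hf : fn ⊤ a b x₀ = 1) : ‖fn ⊤ a b‖ = 1 := by
  refine norm_eq_one_of (fun x => ?_) hx hf
  rw [fn_apply, prod_norm_eq_sup]
  have h1 := abs_ip_le a x.fst
  have h2 := abs_ip_le b x.snd
  have h3 := abs_add_le (ip a x.fst) (ip b x.snd)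
  have h4 : ‖x.fst‖ ≤ ‖x.fst‖ ⊔ ‖x.snd‖ := le_sup_left
  have h5 : ‖x.snd‖ ≤ ‖x.fst‖ ⊔ ‖x.snd‖ := le_sup_right
  have h6 := mul_le_mul_of_nonneg_left h4 (norm_nonneg a)
  have h7 := mul_le_mul_of_nonneg_left h5 (norm_nonneg b)
  have h8 : 0 ≤ ‖x.fst‖ ⊔ ‖x.snd‖ := (norm_nonneg _).trans h4
  nlinarith

theorem top_norm_eq_one {u w : ℂ} (hu : ‖u‖ = 1) (hw : ‖w‖ ≤ 1) :
    ‖(toLp ⊤ (u, w) : WithLp ⊤ (ℂ × ℂ))‖ = 1 := by
  rw [prod_norm_eq_sup]
  simp [hu, hw]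

theorem top_norm_eq_one' {u w : ℂ} (hu : ‖u‖ = 1) (hw : ‖w‖ ≤ 1) :
    ‖(toLp ⊤ (w, u) : WithLp ⊤ (ℂ × ℂ))‖ = 1 := by
  rw [prod_norm_eq_sup]
  simp [hu, hw]

theorem norm_le_of_ip {v : ℂ} {M : ℝ} (h : ∀ z : ℂ, ‖z‖ = 1 → ip z v ≤ M) : ‖v‖ ≤ M := by
  obtain ⟨z, hz, h1, -⟩ := exists_unit v
  rw [← h1]
  exact h z hz

/-- Planar inequality with `y` in the disc and a vector `e`. -/
theorem row_bound (A : ℂ →L[ℝ] ℂ) (e : ℂ) (V : ℝ)
    (h : ∀ u : ℂ, ‖u‖ = 1 → |ip u (A u)| + |ip u e| ≤ V) (y : ℂ) (hy : ‖y‖ ≤ 1) :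
    ‖A y - skw A • (Complex.I * y) + e‖ ≤ kk * V := by
  apply norm_le_of_ip
  intro z hz
  obtain ⟨y₀, hy₀, -, hyy⟩ := exists_unit y
  have h' : ∀ u : ℂ, ‖u‖ = 1 → |ip u (A u)| + |e.re * u.re + e.im * u.im| ≤ V := by
    intro u hu
    have := h u hu
    rw [show ip u e = e.re * u.re + e.im * u.im by rw [ip]; ring] at this
    exact this
  have h1 := planar_op A e.re e.im V h' z y₀ hz hy₀
  have h2 := planar_op A e.re e.im V h' z (-y₀) hz (by rw [norm_neg, hy₀])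
  rw [ip_sym_comm] at h1 h2
  have h3 : ip z (A (-y₀) - skw A • (Complex.I * -y₀)) =
      -ip z (A y₀ - skw A • (Complex.I * y₀)) := by
    rw [← ip_neg]
    congr 1
    rw [map_neg, mul_neg, smul_neg]
    ring
  rw [h3] at h2
  have h4 : ip z (A y - skw A • (Complex.I * y)) =
      ‖y‖ * ip z (A y₀ - skw A • (Complex.I * y₀)) := by
    rw [← ip_smul]
    congr 1
    conv_lhs => rw [hyy]
    rw [map_smul, smul_sub]
    congr 1
    rw [mul_smul_comm, smul_comm]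
  rw [ip_add, h4, show ip z e = e.re * z.re + e.im * z.im by rw [ip]; ring]
  have h5 := norm_nonneg y
  nlinarith

theorem upper_top (T : WithLp ⊤ (ℂ × ℂ) →L[ℝ] WithLp ⊤ (ℂ × ℂ)) :
    ∃ S ∈ skewHerm (WithLp ⊤ (ℂ × ℂ)), ‖T + S‖ ≤ kk * numRadius (WithLp ⊤ (ℂ × ℂ)) T := by
  set A := (fstL ⊤).comp (T.comp (inL ⊤)) with hA
  set B := (fstL ⊤).comp (T.comp (inR ⊤)) with hB
  set C := (sndL ⊤).comp (T.comp (inL ⊤)) with hC
  set D := (sndL ⊤).comp (T.comp (inR ⊤)) with hD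
  set V := numRadius (WithLp ⊤ (ℂ × ℂ)) T with hV
  have hblocks := apply_blocks ⊤ T
  rw [← hA, ← hB, ← hC, ← hD] at hblocks
  have hrow1 : ∀ w : ℂ, ‖w‖ ≤ 1 → ∀ u : ℂ, ‖u‖ = 1 → |ip u (A u)| + |ip u (B w)| ≤ V := by
    intro w hw u hu
    have key : ∀ w' : ℂ, ‖w'‖ ≤ 1 → |ip u (A u) + ip u (B w')| ≤ V := by
      intro w' hw'
      have hx := top_norm_eq_one hu hw'
      have hfx : fn ⊤ u 0 (toLp ⊤ (u, w')) = 1 := by
        rw [fn_apply, zero_ip, add_zero]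
        exact ip_self hu
      have h1 := le_numRadius T hx (fn_top_norm _ (by simp [hu]) hx hfx) hfx
      rw [fn_apply, zero_ip, add_zero, (hblocks _).1, ip_add] at h1
      exact h1
    have k1 := key w hw
    have k2 := key (-w) (by rwa [norm_neg])
    rw [map_neg, ip_neg, ← sub_eq_add_neg] at k2
    exact abs_add_abs_le k1 k2
  have hrow2 : ∀ w : ℂ, ‖w‖ ≤ 1 → ∀ u : ℂ, ‖u‖ = 1 → |ip u (D u)| + |ip u (C w)| ≤ V := by
    intro w hw u hu
    have key : ∀ w' : ℂ, ‖w'‖ ≤ 1 → |ip u (D u) + ip u (C w')| ≤ V := by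
      intro w' hw'
      have hx := top_norm_eq_one' hu hw'
      have hfx : fn ⊤ 0 u (toLp ⊤ (w', u)) = 1 := by
        rw [fn_apply, zero_ip, zero_add]
        exact ip_self hu
      have h1 := le_numRadius T hx (fn_top_norm _ (by simp [hu]) hx hfx) hfx
      rw [fn_apply, zero_ip, zero_add, (hblocks _).2, ip_add, add_comm] at h1
      exact h1
    have k1 := key w hw
    have k2 := key (-w) (by rwa [norm_neg])
    rw [map_neg, ip_neg, ← sub_eq_add_neg] at k2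
    exact abs_add_abs_le k1 k2
  refine ⟨op ⊤ (rot (-skw A)) 0 0 (rot (-skw D)), rot_mem ⊤ ?_ _ _, ?_⟩
  · intro x x' h1 h2
    rw [prod_norm_eq_sup, prod_norm_eq_sup, h1, h2]
  apply ContinuousLinearMap.opNorm_le_of_unit_norm
    (mul_nonneg kk_pos.le (numRadius_nonneg T))
  intro x hx
  rw [prod_norm_eq_sup] at hx
  have hx1 : ‖x.fst‖ ≤ 1 := hx ▸ le_sup_left
  have hx2 : ‖x.snd‖ ≤ 1 := hx ▸ le_sup_right
  rw [prod_norm_eq_sup]
  apply sup_le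
  · have h1 := row_bound A (B x.snd) V (hrow1 _ hx2) x.fst hx1
    have h2 : ((T + op ⊤ (rot (-skw A)) 0 0 (rot (-skw D))) x).fst =
        A x.fst - skw A • (Complex.I * x.fst) + B x.snd := by
      rw [add_apply, add_fst, (hblocks _).1, op_fst, rot_apply]
      simp only [zero_apply, add_zero, neg_smul]
      ring
    rw [h2]
    exact h1
  · have h1 := row_bound D (C x.fst) V (hrow2 _ hx1) x.snd hx2
    have h2 : ((T + op ⊤ (rot (-skw A)) 0 0 (rot (-skw D))) x).snd =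
        D x.snd - skw D • (Complex.I * x.snd) + C x.fst := by
      rw [add_apply, add_snd, (hblocks _).2, op_snd, rot_apply]
      simp only [zero_apply, zero_add, neg_smul]
      ring
    rw [h2]
    exact h1

theorem ip_comm (u v : ℂ) : ip u v = ip v u := by
  simp only [ip]
  ring

theorem eq_of_ip_eq_one {z y : ℂ} (hz : ‖z‖ = 1) (hy : ‖y‖ ≤ 1) (h : ip z y = 1) : y = z := by
  have h1 := sq_eq_one hz
  have h2 := norm_sq_eq y
  have h3 : ‖y‖ ^ 2 ≤ 1 := by nlinarith [norm_nonneg y]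
  rw [ip] at h
  have h4 : (y.re - z.re) ^ 2 + (y.im - z.im) ^ 2 ≤ 0 := by nlinarith
  apply Complex.ext
  · nlinarith [sq_nonneg (y.re - z.re), sq_nonneg (y.im - z.im)]
  · nlinarith [sq_nonneg (y.re - z.re), sq_nonneg (y.im - z.im)]

theorem eq_zero_of_ip {v : ℂ} (h : ∀ u : ℂ, ‖u‖ = 1 → ip u v = 0) : v = 0 := by
  rw [← norm_le_zero_iff]
  exact norm_le_of_ip fun z hz => (h z hz).le

theorem example_top_le :
    numRadius (WithLp ⊤ (ℂ × ℂ)) (op ⊤ P₀ B₀ 0 0) ≤ 9 := by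
  apply numRadius_le _ (by norm_num)
  intro x f hx hf hfx
  obtain ⟨a, b, rfl⟩ := exists_fn ⊤ f
  obtain ⟨za, hza, ha, haz⟩ := exists_unit a
  obtain ⟨zb, hzb, hb, -⟩ := exists_unit b
  have hab : ‖a‖ + ‖b‖ ≤ 1 := by
    have h1 := (fn ⊤ a b).le_opNorm (toLp ⊤ (za, zb))
    rw [hf, top_norm_eq_one hza hzb.le, fn_apply] at h1
    simp only [toLp_fst, toLp_snd] at h1
    rw [ip_comm a, ip_comm b, ha, hb, Real.norm_eq_abs, mul_one] at h1
    exact (le_abs_self _).trans h1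
  rw [prod_norm_eq_sup] at hx
  have hx1 : ‖x.fst‖ ≤ 1 := hx ▸ le_sup_left
  have hx2 : ‖x.snd‖ ≤ 1 := hx ▸ le_sup_right
  rw [fn_apply] at hfx
  have h3 := (abs_le.1 (abs_ip_le a x.fst)).2
  have h4 := (abs_le.1 (abs_ip_le b x.snd)).2
  have h5 : ‖a‖ * ‖x.fst‖ ≤ ‖a‖ * 1 := mul_le_mul_of_nonneg_left hx1 (norm_nonneg a)
  have h6 : ‖b‖ * ‖x.snd‖ ≤ ‖b‖ * 1 := mul_le_mul_of_nonneg_left hx2 (norm_nonneg b)
  have h7 : ip a x.fst = ‖a‖ := by linarith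
  rw [fn_apply, op_fst, op_snd]
  simp only [zero_apply, add_zero, ip_zero]
  rcases (norm_nonneg a).eq_or_lt with h0 | h0
  · have : a = 0 := norm_eq_zero.1 h0.symm
    rw [this, zero_ip, abs_zero]
    norm_num
  · have h8 : ip za x.fst = 1 := by
      have e1 : ip a x.fst = ‖a‖ * ip za x.fst := by
        rw [ip_comm a, ip_comm za, ← ip_smul, ← haz]
      rw [e1] at h7
      exact mul_left_cancel₀ h0.ne' (by rw [h7, mul_one])
    have h9 := eq_of_ip_eq_one hza hx1 h8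
    have e2 : ip a (P₀ x.fst + B₀ x.snd) = ‖a‖ * (ip za (P₀ za) + ip za (B₀ x.snd)) := by
      rw [h9, ← ip_add, ip_comm a, ip_comm za, ← ip_smul, ← haz]
    rw [e2, abs_mul, abs_of_pos h0]
    have h10 : |ip za (B₀ x.snd)| ≤ 8 * |za.re| := by
      rw [ip, B₀_re, B₀_im, mul_zero, add_zero, abs_mul, abs_mul]
      have h11 : |x.snd.re| ≤ 1 := (Complex.abs_re_le_norm _).trans hx2
      have h12 := abs_nonneg za.re
      rw [abs_of_pos (by norm_num : (0 : ℝ) < 8)]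
      nlinarith
    have h13 := example_le hza h10
    have h14 := abs_add_le (ip za (P₀ za)) (ip za (B₀ x.snd))
    have h15 : ‖a‖ ≤ 1 := by linarith [norm_nonneg b]
    have h16 := abs_nonneg (ip za (P₀ za) + ip za (B₀ x.snd))
    nlinarith

theorem example_top_ge (S : WithLp ⊤ (ℂ × ℂ) →L[ℝ] WithLp ⊤ (ℂ × ℂ))
    (hS : S ∈ skewHerm (WithLp ⊤ (ℂ × ℂ))) : 9 * kk ≤ ‖op ⊤ P₀ B₀ 0 0 + S‖ := by
  rw [mem_skewHerm_iff] at hS
  set A := (fstL ⊤).comp (S.comp (inL ⊤)) with hA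
  set B := (fstL ⊤).comp (S.comp (inR ⊤)) with hB
  have hblocks := fun x => (apply_blocks ⊤ S x).1
  rw [← hA, ← hB] at hblocks
  have key : ∀ u w : ℂ, ‖u‖ = 1 → ‖w‖ ≤ 1 → ip u (A u) + ip u (B w) = 0 := by
    intro u w hu hw
    have hx := top_norm_eq_one hu hw
    have hfx : fn ⊤ u 0 (toLp ⊤ (u, w)) = 1 := by
      rw [fn_apply, zero_ip, add_zero]
      exact ip_self hu
    have h1 := hS _ _ hx (fn_top_norm _ (by simp [hu]) hx hfx) hfx
    rw [fn_apply, zero_ip, add_zero, hblocks, ip_add] at h1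
    exact h1
  have hAu : ∀ u : ℂ, ‖u‖ = 1 → ip u (A u) = 0 := by
    intro u hu
    have := key u 0 hu (by simp)
    rwa [map_zero, ip_zero, add_zero] at this
  have hB1 : B 1 = 0 := by
    apply eq_zero_of_ip
    intro u hu
    have := key u 1 hu (by simp)
    rwa [hAu u hu, zero_add] at this
  refine example_ge (-(A 1).im) _ ?_
  intro z y hz hy
  have hx : ‖(toLp ⊤ (y, (1 : ℂ)) : WithLp ⊤ (ℂ × ℂ))‖ = 1 := top_norm_eq_one hy (by simp)
  have h1 := (op ⊤ P₀ B₀ 0 0 + S).le_opNorm (toLp ⊤ (y, (1 : ℂ)))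
  rw [hx, mul_one, prod_norm_eq_sup] at h1
  have h2 : ‖((op ⊤ P₀ B₀ 0 0 + S) (toLp ⊤ (y, (1 : ℂ)))).fst‖ ≤ ‖op ⊤ P₀ B₀ 0 0 + S‖ :=
    le_sup_left.trans h1
  rw [add_apply, add_fst, op_fst, hblocks] at h2
  simp only [toLp_fst, toLp_snd] at h2
  rw [hB1, add_zero] at h2
  have h3 := (abs_le.1 (abs_ip_le z (P₀ y + B₀ 1 + A y))).2
  rw [hz, one_mul, ip_add, ip_add, ip_P₀, ip_skew (skew_conditions A hAu)] at h3
  have h4 : ip z (B₀ 1) = 8 * z.re := by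
    rw [ip, B₀_re, B₀_im]
    simp
    ring
  rw [h4] at h3
  linarith

/-! #### The sum norm -/

theorem fn_one_norm {a b : ℂ} (x₀ : WithLp 1 (ℂ × ℂ)) (ha : ‖a‖ ≤ 1) (hb : ‖b‖ ≤ 1)
    (hx : ‖x₀‖ = 1) (hf : fn 1 a b x₀ = 1) : ‖fn 1 a b‖ = 1 := by
  refine norm_eq_one_of (fun x => ?_) hx hf
  rw [fn_apply, prod_norm_eq_of_L1]
  have h1 := abs_ip_le a x.fst
  have h2 := abs_ip_le b x.snd
  have h3 := abs_add_le (ip a x.fst) (ip b x.snd)
  have h4 := norm_nonneg x.fst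
  have h5 := norm_nonneg x.snd
  nlinarith

theorem one_norm_left (u : ℂ) : ‖(toLp 1 (u, 0) : WithLp 1 (ℂ × ℂ))‖ = ‖u‖ := by
  rw [prod_norm_eq_of_L1]
  simp

theorem one_norm_right (u : ℂ) : ‖(toLp 1 (0, u) : WithLp 1 (ℂ × ℂ))‖ = ‖u‖ := by
  rw [prod_norm_eq_of_L1]
  simp

theorem col_bound (A C : ℂ →L[ℝ] ℂ) (V : ℝ)
    (h : ∀ u w : ℂ, ‖u‖ = 1 → ‖w‖ ≤ 1 → |ip u (A u)| + |ip w (C u)| ≤ V) (y : ℂ) :
    ‖A y - skw A • (Complex.I * y)‖ + ‖C y‖ ≤ kk * V * ‖y‖ := by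
  obtain ⟨y₀, hy₀, -, hyy⟩ := exists_unit y
  have e1 : A y - skw A • (Complex.I * y) = ‖y‖ • (A y₀ - skw A • (Complex.I * y₀)) := by
    conv_lhs => rw [hyy]
    rw [map_smul, smul_sub]
    congr 1
    rw [mul_smul_comm, smul_comm]
  have e2 : C y = ‖y‖ • C y₀ := by
    conv_lhs => rw [hyy]
    rw [map_smul]
  rw [e1, e2, norm_smul, norm_smul, norm_norm, ← mul_add, mul_comm]
  apply mul_le_mul_of_nonneg_right _ (norm_nonneg y)
  obtain ⟨z, hz, h1, -⟩ := exists_unit (A y₀ - skw A • (Complex.I * y₀))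
  obtain ⟨w, hw, h2, -⟩ := exists_unit (C y₀)
  rw [← h1, ← h2]
  have e3 : ∀ u : ℂ, ip w (C u) = ip w (C 1) * u.re + ip w (C Complex.I) * u.im := by
    intro u
    rw [apply_eq C u, ip_add, ip_smul, ip_smul]
    ring
  rw [e3]
  refine planar_op A _ _ V ?_ y₀ z hy₀ hz
  intro u hu
  rw [← e3]
  exact h u w hu hw.le

theorem upper_one (T : WithLp 1 (ℂ × ℂ) →L[ℝ] WithLp 1 (ℂ × ℂ)) :
    ∃ S ∈ skewHerm (WithLp 1 (ℂ × ℂ)), ‖T + S‖ ≤ kk * numRadius (WithLp 1 (ℂ × ℂ)) T := by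
  set A := (fstL 1).comp (T.comp (inL 1)) with hA
  set B := (fstL 1).comp (T.comp (inR 1)) with hB
  set C := (sndL 1).comp (T.comp (inL 1)) with hC
  set D := (sndL 1).comp (T.comp (inR 1)) with hD
  set V := numRadius (WithLp 1 (ℂ × ℂ)) T with hV
  have hblocks := apply_blocks 1 T
  rw [← hA, ← hB, ← hC, ← hD] at hblocks
  have hcol1 : ∀ u w : ℂ, ‖u‖ = 1 → ‖w‖ ≤ 1 → |ip u (A u)| + |ip w (C u)| ≤ V := by
    intro u w hu hw
    have key : ∀ w' : ℂ, ‖w'‖ ≤ 1 → |ip u (A u) + ip w' (C u)| ≤ V := by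
      intro w' hw'
      have hx : ‖(toLp 1 (u, 0) : WithLp 1 (ℂ × ℂ))‖ = 1 := by rw [one_norm_left, hu]
      have hfx : fn 1 u w' (toLp 1 (u, 0)) = 1 := by
        rw [fn_apply]
        simp only [toLp_fst, toLp_snd, ip_zero, add_zero]
        exact ip_self hu
      have h1 := le_numRadius T hx (fn_one_norm _ hu.le hw' hx hfx) hfx
      rw [fn_apply, (hblocks _).1, (hblocks _).2] at h1
      simpa using h1
    have k1 := key w hw
    have k2 := key (-w) (by rwa [norm_neg])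
    rw [ip_comm (-w), ip_neg, ip_comm _ w, ← sub_eq_add_neg] at k2
    exact abs_add_abs_le k1 k2
  have hcol2 : ∀ u w : ℂ, ‖u‖ = 1 → ‖w‖ ≤ 1 → |ip u (D u)| + |ip w (B u)| ≤ V := by
    intro u w hu hw
    have key : ∀ w' : ℂ, ‖w'‖ ≤ 1 → |ip u (D u) + ip w' (B u)| ≤ V := by
      intro w' hw'
      have hx : ‖(toLp 1 (0, u) : WithLp 1 (ℂ × ℂ))‖ = 1 := by rw [one_norm_right, hu]
      have hfx : fn 1 w' u (toLp 1 (0, u)) = 1 := by
        rw [fn_apply]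
        simp only [toLp_fst, toLp_snd, ip_zero, zero_add]
        exact ip_self hu
      have h1 := le_numRadius T hx (fn_one_norm _ hw' hu.le hx hfx) hfx
      rw [fn_apply, (hblocks _).1, (hblocks _).2, add_comm] at h1
      simpa using h1
    have k1 := key w hw
    have k2 := key (-w) (by rwa [norm_neg])
    rw [ip_comm (-w), ip_neg, ip_comm _ w, ← sub_eq_add_neg] at k2
    exact abs_add_abs_le k1 k2
  refine ⟨op 1 (rot (-skw A)) 0 0 (rot (-skw D)), rot_mem 1 ?_ _ _, ?_⟩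
  · intro x x' h1 h2
    rw [prod_norm_eq_of_L1, prod_norm_eq_of_L1, h1, h2]
  apply ContinuousLinearMap.opNorm_le_of_unit_norm
    (mul_nonneg kk_pos.le (numRadius_nonneg T))
  intro x hx
  rw [prod_norm_eq_of_L1] at hx
  rw [prod_norm_eq_of_L1]
  have e1 : ((T + op 1 (rot (-skw A)) 0 0 (rot (-skw D))) x).fst =
      (A x.fst - skw A • (Complex.I * x.fst)) + B x.snd := by
    rw [add_apply, add_fst, (hblocks _).1, op_fst, rot_apply]
    simp only [zero_apply, add_zero, neg_smul]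
    ring
  have e2 : ((T + op 1 (rot (-skw A)) 0 0 (rot (-skw D))) x).snd =
      (D x.snd - skw D • (Complex.I * x.snd)) + C x.fst := by
    rw [add_apply, add_snd, (hblocks _).2, op_snd, rot_apply]
    simp only [zero_apply, zero_add, neg_smul]
    ring
  rw [e1, e2]
  have h1 := col_bound A C V hcol1 x.fst
  have h2 := col_bound D B V hcol2 x.snd
  have h3 := norm_add_le (A x.fst - skw A • (Complex.I * x.fst)) (B x.snd)
  have h4 := norm_add_le (D x.snd - skw D • (Complex.I * x.snd)) (C x.fst)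
  have h5 : kk * V * ‖x.fst‖ + kk * V * ‖x.snd‖ = kk * V := by
    rw [← mul_add, hx, mul_one]
  linarith

theorem example_one_le :
    numRadius (WithLp 1 (ℂ × ℂ)) (op 1 P₀ 0 B₀ 0) ≤ 9 := by
  apply numRadius_le _ (by norm_num)
  intro x f hx hf hfx
  obtain ⟨a, b, rfl⟩ := exists_fn 1 f
  obtain ⟨za, hza, ha, -⟩ := exists_unit a
  obtain ⟨zb, hzb, hb, -⟩ := exists_unit b
  have ha1 : ‖a‖ ≤ 1 := by
    have h1 := (fn 1 a b).le_opNorm (toLp 1 (za, 0))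
    rw [hf, one_norm_left, hza, fn_apply] at h1
    simp only [toLp_fst, toLp_snd, ip_zero, add_zero] at h1
    rw [ip_comm a, ha, Real.norm_eq_abs, mul_one] at h1
    exact (le_abs_self _).trans h1
  have hb1 : ‖b‖ ≤ 1 := by
    have h1 := (fn 1 a b).le_opNorm (toLp 1 (0, zb))
    rw [hf, one_norm_right, hzb, fn_apply] at h1
    simp only [toLp_fst, toLp_snd, ip_zero, zero_add] at h1
    rw [ip_comm b, hb, Real.norm_eq_abs, mul_one] at h1
    exact (le_abs_self _).trans h1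
  rw [prod_norm_eq_of_L1] at hx
  rw [fn_apply] at hfx
  have h3 := (abs_le.1 (abs_ip_le a x.fst)).2
  have h4 := (abs_le.1 (abs_ip_le b x.snd)).2
  have h5 : ‖a‖ * ‖x.fst‖ ≤ 1 * ‖x.fst‖ := mul_le_mul_of_nonneg_right ha1 (norm_nonneg _)
  have h6 : ‖b‖ * ‖x.snd‖ ≤ 1 * ‖x.snd‖ := mul_le_mul_of_nonneg_right hb1 (norm_nonneg _)
  have h7 : ip a x.fst = ‖x.fst‖ := by linarith
  rw [fn_apply, op_fst, op_snd]
  simp only [zero_apply, add_zero]
  obtain ⟨z, hz, -, hyz⟩ := exists_unit x.fst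
  rcases (norm_nonneg x.fst).eq_or_lt with h0 | h0
  · have : x.fst = 0 := norm_eq_zero.1 h0.symm
    rw [this, map_zero, map_zero, ip_zero, ip_zero]
    norm_num
  · have h8 : ip z a = 1 := by
      have e1 : ip a x.fst = ‖x.fst‖ * ip a z := by
        rw [← ip_smul, ← hyz]
      rw [e1] at h7
      rw [ip_comm]
      exact mul_left_cancel₀ h0.ne' (by rw [h7, mul_one])
    have h9 := eq_of_ip_eq_one hz ha1 h8
    have e2 : ip a (P₀ x.fst) + ip b (B₀ x.fst) =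
        ‖x.fst‖ * (ip z (P₀ z) + ip b (B₀ z)) := by
      rw [h9]
      nth_rewrite 1 [hyz]
      nth_rewrite 2 [hyz]
      rw [map_smul, map_smul, ip_smul, ip_smul]
      ring
    rw [e2, abs_mul, abs_of_pos h0]
    have h10 : |ip b (B₀ z)| ≤ 8 * |z.re| := by
      rw [ip, B₀_re, B₀_im, mul_zero, add_zero, abs_mul, abs_mul]
      have h11 : |b.re| ≤ 1 := (Complex.abs_re_le_norm _).trans hb1
      have h12 := abs_nonneg z.re
      rw [abs_of_pos (by norm_num : (0 : ℝ) < 8)]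
      nlinarith
    have h13 := example_le hz h10
    have h14 := abs_add_le (ip z (P₀ z)) (ip b (B₀ z))
    have h15 : ‖x.fst‖ ≤ 1 := by linarith [norm_nonneg x.snd]
    have h16 := abs_nonneg (ip z (P₀ z) + ip b (B₀ z))
    nlinarith

theorem example_one_ge (S : WithLp 1 (ℂ × ℂ) →L[ℝ] WithLp 1 (ℂ × ℂ))
    (hS : S ∈ skewHerm (WithLp 1 (ℂ × ℂ))) : 9 * kk ≤ ‖op 1 P₀ 0 B₀ 0 + S‖ := by
  rw [mem_skewHerm_iff] at hS
  set A := (fstL 1).comp (S.comp (inL 1)) with hA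
  set C := (sndL 1).comp (S.comp (inL 1)) with hC
  have hblocks := apply_blocks 1 S
  rw [← hA, ← hC] at hblocks
  have key : ∀ u w : ℂ, ‖u‖ = 1 → ‖w‖ ≤ 1 → ip u (A u) + ip w (C u) = 0 := by
    intro u w hu hw
    have hx : ‖(toLp 1 (u, 0) : WithLp 1 (ℂ × ℂ))‖ = 1 := by rw [one_norm_left, hu]
    have hfx : fn 1 u w (toLp 1 (u, 0)) = 1 := by
      rw [fn_apply]
      simp only [toLp_fst, toLp_snd, ip_zero, add_zero]
      exact ip_self hu
    have h1 := hS _ _ hx (fn_one_norm _ hu.le hw hx hfx) hfx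
    rw [fn_apply, (hblocks _).1, (hblocks _).2] at h1
    simpa using h1
  have hAu : ∀ u : ℂ, ‖u‖ = 1 → ip u (A u) = 0 := by
    intro u hu
    have := key u 0 hu (by simp)
    rwa [zero_ip, add_zero] at this
  have hCu : ∀ u : ℂ, ‖u‖ = 1 → C u = 0 := by
    intro u hu
    apply eq_zero_of_ip
    intro w hw
    have := key u w hu hw.le
    rwa [hAu u hu, zero_add] at this
  refine example_ge (A 1).im _ ?_
  intro z y hz hy
  have hx : ‖(toLp 1 (z, 0) : WithLp 1 (ℂ × ℂ))‖ = 1 := by rw [one_norm_left, hz]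
  have h1 := (op 1 P₀ 0 B₀ 0 + S).le_opNorm (toLp 1 (z, 0))
  rw [hx, mul_one, prod_norm_eq_of_L1] at h1
  rw [add_apply, add_fst, add_snd, op_fst, op_snd, (hblocks _).1, (hblocks _).2] at h1
  simp only [toLp_fst, toLp_snd, map_zero, add_zero, hCu z hz] at h1
  have h3 := (abs_le.1 (abs_ip_le y (P₀ z + A z))).2
  rw [hy, one_mul, ip_add, ip_P₀, ip_skew (skew_conditions A hAu)] at h3
  have h4 := (abs_le.1 (abs_ip_le 1 (B₀ z))).2
  have h5 : ip 1 (B₀ z) = 8 * z.re := by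
    rw [ip, B₀_re, B₀_im]
    simp
  rw [h5, norm_one, one_mul] at h4
  linarith

end Spaces

/-- The second numerical indices of the real spaces underlying `ℂ ⊕₁ ℂ` and `ℂ ⊕_∞ ℂ` are both
equal to `9 √21 / 49`. -/
theorem result : secondIndex (WithLp 1 (ℂ × ℂ)) = 9 * √21 / 49 ∧
    secondIndex (WithLp ⊤ (ℂ × ℂ)) = 9 * √21 / 49 := by
  have hk : kk⁻¹ = 9 * √21 / 49 := by
    have h21 : √21 * √21 = 21 := Real.mul_self_sqrt (by norm_num)
    have hpos : 0 < √21 := Real.sqrt_pos.2 (by norm_num)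
    rw [kk, inv_div, div_eq_div_iff (by positivity) (by norm_num)]
    linear_combination -63 * h21
  rw [← hk]
  exact ⟨secondIndex_eq kk_pos upper_one _ example_one_le example_one_ge,
    secondIndex_eq kk_pos upper_top _ example_top_le example_top_ge⟩

end Pool.Agent.Results.MP_1cee73_an.SumsOneInfinity
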