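import Pool.Agent.H66.SI.Lp
import Pool.Agent.H66.SI.Strict

set_option autoImplicit false

/-!
Two-sided bounds of the second numerical index of the real space underlying `ℂ ⊕_N ℂ` for
symmetric absolute norms.
-/

namespace Pool.Agent.Results.MP_1cee73_an.SymmetricNorms

open Pool.Agent.H66.SI

/-- Let `N` be a symmetric absolute norm on the plane other than the Euclidean one and `M` the
numerical radius of the rotation of the plane with the norm `N`. Then the second numerical index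
of the real space underlying `ℂ ⊕_N ℂ` lies between `M / (1 + M)` and `M`. In particular this holds
for the `ℓ_p` norms, `1 < p < ∞`, `p ≠ 2`, with
`M = sup {|τ ^ (p - 1) - τ| / (1 + τ ^ p) : 0 ≤ τ ≤ 1}`, and then the index is smaller than `M`. -/
theorem result :
    (∀ N : AbsNorm, (∀ s t : ℝ, N.val t s = N.val s t) →
      (∃ s t : ℝ, N.val s t ≠ √(s ^ 2 + t ^ 2)) →
      N.rotRadius / (1 + N.rotRadius) ≤ secondIndex (ASum N ℂ) ∧
        secondIndex (ASum N ℂ) ≤ N.rotRadius) ∧
    (∀ (p M : ℝ) (hp : 1 < p), p ≠ 2 →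
      M = sSup {r : ℝ | ∃ τ : ℝ, 0 ≤ τ ∧ τ ≤ 1 ∧ r = |τ ^ (p - 1) - τ| / (1 + τ ^ p)} →
      M / (1 + M) ≤ secondIndex (ASum (lpNorm p hp.le) ℂ) ∧
        secondIndex (ASum (lpNorm p hp.le) ℂ) < M) := by
  refine ⟨fun N hs hN => ASum.secondIndex_sym hs hN, ?_⟩
  intro p M hp h2 hM
  rw [hM, ← lpNorm_rotRadius hp]
  exact ⟨(ASum.secondIndex_sym (lpNorm_symm p hp.le) (lpNorm_ne p hp.le h2)).1, lp_strict hp h2⟩

end Pool.Agent.Results.MP_1cee73_an.SymmetricNorms
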